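import Pool.Agent.Helper61.QS.GoalsC

/-!
# Project QS (MP_0ebdb3_gt), packet C-CW

Two skew operators commuting with `S` can be made to commute by conjugating one of them along a path
in `UC S` which starts at `1`.
-/

set_option autoImplicit false

open Set NormedSpace Pool.Agent.Helper61.QS

namespace Pool.Agent.Helper28.QS

/-- close elements of `UC S` are joined inside `UC S` -/
theorem joined_of_close (h : G_SEG) {k : ℕ} {S : Set (En k)} {w w' : En k} (hw : w ∈ UC S)
    (hw' : w' ∈ UC S) (hd : ‖w' - w‖ < 2) : JoinedIn (UC S) w w' := by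
  obtain ⟨seg, h1, h2, -⟩ := h k
  have ha : star w * w' ∈ UC S := UC.mul_mem (UC.star_mem hw) hw'
  have hn : ‖star w * w' - 1‖ < 2 := by
    have e : star w * w' - 1 = star w * (w' - w) := by
      rw [mul_sub, UC.star_mul hw]
    rw [e]
    calc ‖star w * (w' - w)‖ ≤ ‖star w‖ * ‖w' - w‖ := norm_mul_le _ _
      _ ≤ 1 * ‖w' - w‖ := by
          gcongr
          exact UC.norm_le (UC.star_mem hw)
      _ < 2 := by rw [one_mul]; exact hd
  obtain ⟨s0, s1, su, sc⟩ := h1 _ ha.1 hn
  refine JoinedIn.ofLine (f := fun t => w * seg (star w * w') t) ?_ ?_ ?_ ?_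
  · refine continuousOn_const.mul ?_
    have hc : Continuous fun t : ℝ => ((star w * w', t) : En k × ℝ) := by fun_prop
    exact h2.comp hc.continuousOn fun t _ => ⟨⟨ha.1, hn⟩, mem_univ _⟩
  · simp only [s0, mul_one]
  · simp only [s1]
    rw [← mul_assoc, UC.mul_star hw, one_mul]
  · rintro _ ⟨t, -, rfl⟩
    refine UC.mul_mem hw ⟨su t, fun s hs => sc t s (ha.2 s hs)⟩

/-- the component of `1` in `UC S` is compact -/
theorem isCompact_joined (h : G_SEG) (k : ℕ) (S : Set (En k)) :
    IsCompact {w : En k | JoinedIn (UC S) 1 w} := by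
  refine UC.isCompact.of_isClosed_subset ?_ fun w hw => hw.target_mem
  rw [← closure_subset_iff_isClosed]
  intro w hw
  have hwU : w ∈ UC S :=
    UC.isClosed.closure_subset_iff.2 (fun x (hx : JoinedIn (UC S) 1 x) => hx.target_mem) hw
  obtain ⟨w', hw', hd⟩ := Metric.mem_closure_iff.1 hw 2 two_pos
  have hw'' : JoinedIn (UC S) 1 w' := hw'
  refine hw''.trans (joined_of_close h hw''.target_mem hwU ?_)
  rw [dist_eq_norm] at hd
  exact hd

/-- the rational structure needed by the lemmas about the exponential -/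
noncomputable local instance instQ (k : ℕ) : NormedAlgebra ℚ (En k) :=
  NormedAlgebra.restrictScalars ℚ ℝ (En k)

/-- exponentials of skew operators commuting with `S` are in `UC S` -/
theorem exp_mem {k : ℕ} {S : Set (En k)} {Y : En k} (hY : star Y = -Y)
    (hS : ∀ s ∈ S, s * Y = Y * s) (t : ℝ) :
    exp (t • Y) ∈ UC S ∧ star (exp (t • Y)) = exp (-(t • Y)) := by
  have hs : star (exp (t • Y)) = exp (-(t • Y)) := by
    rw [star_exp, star_smul, hY, star_trivial, smul_neg]
  have e1 : exp (-(t • Y)) * exp (t • Y) = 1 := by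
    rw [← exp_add_of_commute (Commute.refl (t • Y)).neg_left, neg_add_cancel, exp_zero]
  have e2 : exp (t • Y) * exp (-(t • Y)) = 1 := by
    rw [← exp_add_of_commute (Commute.refl (t • Y)).neg_right, add_neg_cancel, exp_zero]
  refine ⟨⟨Unitary.mem_iff.2 ⟨?_, ?_⟩, fun s hs' => ?_⟩, hs⟩
  · rw [hs]; exact e1
  · rw [hs]; exact e2
  · have hc : Commute s (t • Y) := Commute.smul_right (hS s hs') t
    exact hc.exp_right

/-- the derivative at `0` of `t ↦ exp (tY) X exp (-tY)` -/
theorem hasDerivAt_conj {k : ℕ} (X Y : En k) :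
    HasDerivAt (fun t : ℝ => exp (t • Y) * X * exp (-(t • Y))) (Y * X - X * Y) 0 := by
  have h1 : HasDerivAt (fun t : ℝ => exp (t • Y)) Y 0 := by
    have := hasDerivAt_exp_smul_const (𝕂 := ℝ) Y (0 : ℝ)
    simpa using this
  have h2 : HasDerivAt (fun t : ℝ => exp (-(t • Y))) (-Y) 0 := by
    have := hasDerivAt_exp_smul_const (𝕂 := ℝ) (-Y) (0 : ℝ)
    simpa using this
  have h3 := (h1.mul_const X).mul h2
  have e : Y * X * exp (-((0 : ℝ) • Y)) + exp ((0 : ℝ) • Y) * X * -Y = Y * X - X * Y := by
    simp [sub_eq_add_neg]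
  rw [e] at h3
  exact h3

/-- **Packet C-CW** -/
theorem goalCW (h : G_SEG) : G_CW := by
  intro k S A B hA hB hSA hSB
  set f : En k → ℝ := fun w => tr (w * B * star w * A) with hf
  have hfc : Continuous f := by
    have : Continuous fun w : En k => w * B * star w * A := by fun_prop
    exact continuous_tr.comp this
  have h1 : (1 : En k) ∈ {w : En k | JoinedIn (UC S) 1 w} := JoinedIn.refl UC.one_mem
  obtain ⟨w, hw, hmax⟩ := (isCompact_joined h k S).exists_isMaxOn ⟨1, h1⟩ hfc.continuousOn
  have hwJ : JoinedIn (UC S) 1 w := hw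
  have hwU : w ∈ UC S := hwJ.target_mem
  obtain ⟨B', hB'⟩ : ∃ B' : En k, B' = w * B * star w := ⟨_, rfl⟩
  have sB' : star B' = -B' := by
    rw [hB', star_mul, star_mul, star_star, hB]
    noncomm_ring
  have cB' : ∀ s ∈ S, s * B' = B' * s := by
    intro s hs
    have e1 := hwU.2 s hs
    have e2 := (UC.star_mem hwU).2 s hs
    rw [hB']
    calc s * (w * B * star w) = (s * w) * B * star w := by noncomm_ring
      _ = w * (s * B) * star w := by rw [e1]; noncomm_ring
      _ = w * B * (s * star w) := by rw [hSB s hs]; noncomm_ring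
      _ = w * B * star w * s := by rw [e2]; noncomm_ring
  -- the first order condition
  have key : ∀ Y : En k, star Y = -Y → (∀ s ∈ S, s * Y = Y * s) → tr ((Y * B' - B' * Y) * A) = 0 := by
    intro Y hY hSY
    have hd : HasDerivAt (fun t : ℝ => tr (exp (t • Y) * B' * exp (-(t • Y)) * A))
        (tr ((Y * B' - B' * Y) * A)) 0 := by
      have h3 := (hasDerivAt_conj B' Y).mul_const A
      have h4 := (LinearMap.toContinuousLinearMap (trL k)).hasFDerivAt.comp_hasDerivAt (0 : ℝ) h3
      exact h4
    refine IsLocalMax.hasDerivAt_eq_zero ?_ hd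
    refine Filter.Eventually.of_forall fun t => ?_
    have hJ : JoinedIn (UC S) 1 (exp (t • Y) * w) := by
      refine hwJ.trans ?_
      refine JoinedIn.ofLine (f := fun r : ℝ => exp ((r * t) • Y) * w) ?_ ?_ ?_ ?_
      · have : Continuous fun r : ℝ => exp ((r * t) • Y) * w :=
          (exp_continuous.comp (by fun_prop)).mul continuous_const
        exact this.continuousOn
      · simp
      · simp
      · rintro _ ⟨r, -, rfl⟩
        exact UC.mul_mem (exp_mem hY hSY _).1 hwU
    have hle : f (exp (t • Y) * w) ≤ f w := hmax hJ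
    have e1 : f (exp (t • Y) * w) = tr (exp (t • Y) * B' * exp (-(t • Y)) * A) := by
      simp only [hf]
      rw [star_mul, (exp_mem hY hSY t).2, hB']
      noncomm_ring
    have e2 : f w = tr (exp ((0 : ℝ) • Y) * B' * exp (-((0 : ℝ) • Y)) * A) := by
      simp only [hf]
      simp [hB']
    show tr (exp (t • Y) * B' * exp (-(t • Y)) * A) ≤
      tr (exp ((0 : ℝ) • Y) * B' * exp (-((0 : ℝ) • Y)) * A)
    rw [← e1, ← e2]
    exact hle
  -- the commutator vanishes
  have hY : B' * A - A * B' = 0 := by
    have s1 : star (B' * A - A * B') = -(B' * A - A * B') := by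
      rw [star_sub, star_mul, star_mul, hA, sB']
      noncomm_ring
    have s2 : ∀ s ∈ S, s * (B' * A - A * B') = (B' * A - A * B') * s := by
      intro s hs
      calc s * (B' * A - A * B') = (s * B') * A - (s * A) * B' := by noncomm_ring
        _ = B' * (s * A) - A * (s * B') := by
            rw [cB' s hs, hSA s hs, mul_assoc, mul_assoc, ← hSA s hs, ← cB' s hs]
        _ = (B' * A - A * B') * s := by
            rw [cB' s hs, hSA s hs]
            noncomm_ring
    refine eq_zero_of_skew _ s1 ?_
    have hk := key _ s1 s2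
    set Y := B' * A - A * B' with hYdef
    have e1 : tr ((Y * B' - B' * Y) * A) = tr (Y * Y) := by
      calc tr ((Y * B' - B' * Y) * A) = tr (Y * B' * A) - tr (B' * Y * A) := by
            rw [sub_mul, tr_sub]
        _ = tr (Y * B' * A) - tr (Y * A * B') := by
            rw [mul_assoc B' Y A, tr_mul_comm B' (Y * A)]
        _ = tr (Y * Y) := by
            rw [← tr_sub]
            congr 1
            conv_rhs => rw [hYdef]
            rw [← hYdef, mul_sub]
            noncomm_ring
    rw [← e1]
    exact hk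
  -- the path
  obtain ⟨γ, hγ⟩ := hwJ
  refine ⟨γ.extend, γ.continuous_extend, γ.extend_zero, fun t => ?_, ?_⟩
  · have : γ.extend t ∈ range γ.extend := mem_range_self t
    rw [γ.extend_range] at this
    obtain ⟨s, hs⟩ := this
    rw [← hs]
    exact hγ s
  · rw [γ.extend_one]
    rw [← hB']
    exact sub_eq_zero.1 hY

end Pool.Agent.Helper28.QS
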