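import Pool.Agent.Helper61.QS.GoalsG

/-!
# Project QS (MP_0ebdb3_gt), packet G-KC

Consequences of nonnegative sectional curvature on the tube: the curvature number of the base is
nonnegative, and where it vanishes the curvature of the connection vanishes.
-/

set_option autoImplicit false

open Set ComplexConjugate Pool.Agent.Helper61.QS

namespace Pool.Agent.Helper28.QS

/-- **Packet G-KC** -/
theorem goalKC (h1 : G_FR) (h2 : G_KG) : G_KC := by
  intro m k n e B gM γ ρ hb hM hF hρ hT x0 hx0 K hK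
  obtain ⟨U, s, hch, hxU, hs⟩ := h1 m k n e B hb x0 hx0
  have hX : pol x0 ∈ X := hch.mem x0 hxU
  -- the inequality at every point of the fibre
  have key : ∀ w : V k, ‖s x0 w‖ < ρ →
      0 ≤ K - 3 / 4 * γ (pol x0, s x0 w) (FF B x0 (s x0 w)) (FF B x0 (s x0 w)) := by
    intro w hw
    obtain ⟨-, hc⟩ := h2 m k n e B gM γ ρ hb hM hF U s hch x0 hxU hs w hw
    exact hT U pol s hch x0 hxU w hw _ _ _ (hc K hK)
  refine ⟨?_, fun hK0 => ?_⟩
  · have h := key 0 (by rw [map_zero, norm_zero]; exact hρ)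
    rw [map_zero, map_zero, map_zero, mul_zero, sub_zero] at h
    exact h
  · ext1 u
    show FF B x0 (e (pol x0) u) = 0
    have hv : e (pol x0) (e (pol x0) u) = e (pol x0) u :=
      congrArg (fun T : En n => T u) (hb.idem _ hX)
    obtain ⟨w, hw⟩ := (hch.range x0 hxU _).1 hv
    by_contra hne
    obtain ⟨t, ht0, ht⟩ : ∃ t : ℝ, 0 < t ∧ ‖s x0 (t • w)‖ < ρ := by
      refine ⟨ρ / (‖s x0 w‖ + 1), by positivity, ?_⟩
      rw [map_smul, norm_smul, Real.norm_of_nonneg (by positivity), div_mul_eq_mul_div,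
        div_lt_iff₀ (by positivity)]
      nlinarith [norm_nonneg (s x0 w)]
    obtain ⟨he, -⟩ := h2 m k n e B gM γ ρ hb hM hF U s hch x0 hxU hs (t • w) ht
    have hk := key (t • w) ht
    have hr : e (pol x0) (s x0 (t • w)) = s x0 (t • w) := (hch.range x0 hxU _).2 ⟨_, rfl⟩
    have hn : FF B x0 (s x0 (t • w)) ≠ 0 := by
      rw [map_smul, map_smul, hw]
      exact smul_ne_zero ht0.ne' hne
    have hp := hF.pos _ hX _ hr ht _ he hn
    rw [hK0] at hk
    linarith

end Pool.Agent.Helper28.QS
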